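import Pool.Agent.H.MP_cf3d36_an.B

set_option autoImplicit false

namespace Pool.Agent.Results.MP_cf3d36_an.PosMilutin

open Pool.Agent.H.MP_cf3d36_an in
theorem result (K L : Type*) [MetricSpace K] [CompactSpace K] [Uncountable K]
    [MetricSpace L] [CompactSpace L] [Uncountable L] :
    (∃ T : C(K, ℝ) ≃L[ℝ] C(L, ℝ), ∀ f : C(K, ℝ), (∀ x, 0 ≤ f x) → ∀ y, 0 ≤ T f y) ∧
      ∃ T : C(K, ℝ) ≃L[ℝ] C(unitInterval, ℝ), ∀ f : C(K, ℝ), (∀ x, 0 ≤ f x) → ∀ y, 0 ≤ T f y := by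
  have := unc
  obtain ⟨T, h⟩ := (main K).1
  obtain ⟨S, k⟩ := (main L).2
  obtain ⟨R, l⟩ := (main unitInterval).2
  exact ⟨⟨T.trans S, k.comp h⟩, T.trans R, l.comp h⟩

end Pool.Agent.Results.MP_cf3d36_an.PosMilutin
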